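import Pool.Agent.KS6_47.SCT.Main

set_option autoImplicit false

/-!
# MP_f8852a_lc: the spaces of components of the spaces of strong computable type

Every compact metrizable totally disconnected space `Z` is (up to homeomorphism) the space of connected
components of a compact metrizable space `X` of strong computable type. As the space of components
of a compact metrizable space is always compact, metrizable and totally disconnected, this describes
all possible spaces of components. If `Z` is infinite, `X` has infinitely many components (Q1); if
`Z` is the Cantor space, then `X` has uncountably many components and none of them is open.

The definitions (`HilbertCube`, `box`, `SemicomputableIn`, `ComputableRel`,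
`StrongComputableType`) are in `Pool.Agent.KS6_47.SCT.Defs`.

Idea. Let `Z` be a closed subset of the Cantor space. The component over `z` is the solenoid with the
bonding numbers `F (ℓ 0 z), F (ℓ 1 z), …`, where `F l = 2 ^ 2 ^ l + 1` and the label `ℓ n z` codes the
first `n` digits of `z` **and the list of all words of length `n` which occur in `Z`**. Let `θ` be
the projection to the first circle. If a copy of the space, minus a basic open set `b`, is
partitioned into pieces indexed by a list `S` of words, such that `θ` has a root of order
`F (w, S)` on the piece `w ≠ σ` and a square root on the piece `σ ∈ S`, then `b` meets the copy:
otherwise the labels on the pieces force `S` to be the true list of some level, and then no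
component can lie in the piece `σ`. Conversely such a partition exists whenever `b` meets the copy,
and these partitions (by means of boxes, with finitely many boxes as advice for `θ`) can be enumerated.
-/

namespace Pool.Agent.Results.MP_f8852a_lc.AllComponentSpaces

open Pool.Agent.KS6_47.SCT

/-- **Every compact metrizable totally disconnected space is the space of components of a compact
metrizable space of strong computable type.** -/
theorem result (Z : Type) [TopologicalSpace Z] [CompactSpace Z]
    [TopologicalSpace.MetrizableSpace Z] [TotallyDisconnectedSpace Z] :
    ∃ (X : Type) (_ : TopologicalSpace X), CompactSpace X ∧
      TopologicalSpace.MetrizableSpace X ∧ StrongComputableType X ∧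
      Nonempty (ConnectedComponents X ≃ₜ Z) :=
  main Z

end Pool.Agent.Results.MP_f8852a_lc.AllComponentSpaces
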